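import Pool.Agent.Helper27.PHU.Defs
import Pool.Agent.Helper85.PHU.Gab

/-!
# MP_8bf717_co, module PHU-6: the hexagon with two roof lines and two floor lines
-/

set_option autoImplicit false

open MeasureTheory Set

namespace Pool.Agent.Helper7.PHU

open Pool.Agent.Helper27.PHU Pool.Agent.Helper37.PH Pool.Agent.Helper61.PH
open Pool.Agent.Helper85.PHU

private theorem h7_roof {c lam h e M x v : ℝ} (hc : 0 < c) (hlam : 0 ≤ lam) (hM : M ≤ h)
    (he : 0 ≤ e) (heM : e ≤ M) (h1 : v ≤ h * (x / c) + e) (h2 : v ≤ h) :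
    v ≤ M + (h + e - M) / (c + lam) * (x + lam) := by
  have hcl : 0 < c + lam := by linarith
  set s := (h + e - M) / (c + lam) with hs
  have hs1 : s * (c + lam) = h + e - M := div_mul_cancel₀ _ hcl.ne'
  have hs0 : 0 ≤ s := div_nonneg (by linarith) hcl.le
  rcases le_total c x with hx | hx
  · have h3 : s * (c + lam) ≤ s * (x + lam) := mul_le_mul_of_nonneg_left (by linarith) hs0
    linarith
  · refine h1.trans ?_
    set u := x / c with hu
    have hux : x = u * c := (div_mul_cancel₀ _ hc.ne').symm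
    have hu1 : u ≤ 1 := by rw [hu, div_le_one hc]; exact hx
    have hh : 0 ≤ h := by linarith
    have h4 : 0 ≤ (M + s * (x + lam) - (h * u + e)) * (c + lam) := by
      have h5 : (M + s * (x + lam) - (h * u + e)) * (c + lam) =
          (1 - u) * ((M - e) * c + h * lam) := by
        have h6 : s * (x + lam) * (c + lam) = (h + e - M) * (x + lam) := by
          rw [← hs1]; ring
        have h7 : (M + s * (x + lam) - (h * u + e)) * (c + lam) =
            M * (c + lam) + s * (x + lam) * (c + lam) - (h * u + e) * (c + lam) := by ring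
        rw [h7, h6, hux]
        ring
      rw [h5]
      refine mul_nonneg (by linarith) (add_nonneg (mul_nonneg (by linarith) hc.le)
        (mul_nonneg hh hlam))
    have h8 := nonneg_of_mul_nonneg_left h4 hcl
    linarith

theorem cov22 {K : Set (ℝ × ℝ)} {b c1 c2 r1 r2 l1 l2 lam rho e1 f1 e2 f2 : ℝ}
    (h : Frame K b c1 c2 r1 r2 l1 l2) (hf : Feat K b c1 c2 lam rho e1 f1 e2 f2) :
    Cov K (3 / 4 * (1 + lam + rho) + (1 + lam + rho) * (max e1 f1 + max e2 f2) / 2
      + ((c1 + lam) * e1 / 2 + (1 - c1 + rho) * f1 / 2)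
      + ((c2 + lam) * e2 / 2 + (1 - c2 + rho) * f2 / 2)) := by
  have hlam := hf.lam0
  have hrho := hf.rho0
  have hb0 := h.b0
  have hb1 := h.b1
  have hc10 := h.c10
  have hc11 := h.c11
  have hc20 := h.c20
  have hc21 := h.c21
  set M1 := max e1 f1 with hM1
  set M2 := max e2 f2 with hM2
  have hM1e : e1 ≤ M1 := le_max_left _ _
  have hM1f : f1 ≤ M1 := le_max_right _ _
  have hM2e : e2 ≤ M2 := le_max_left _ _
  have hM2f : f2 ≤ M2 := le_max_right _ _
  have hM1a : M1 ≤ 1 / 2 - b := max_le hf.e11 hf.f11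
  have hM2b : M2 ≤ b := max_le hf.e21 hf.f21
  have he1 := hf.e10
  have hf1 := hf.f10
  have he2 := hf.e20
  have hf2 := hf.f20
  have p1 : 0 < c1 + lam := by linarith
  have p2 : 0 < 1 - c1 + rho := by linarith
  have p3 : 0 < c2 + lam := by linarith
  have p4 : 0 < 1 - c2 + rho := by linarith
  obtain ⟨s1, hs1⟩ : ∃ s, s = (1 / 2 - b + e1 - M1) / (c1 + lam) := ⟨_, rfl⟩
  obtain ⟨s2, hs2⟩ : ∃ s, s = (1 / 2 - b + f1 - M1) / (1 - c1 + rho) := ⟨_, rfl⟩
  obtain ⟨t1, ht1⟩ : ∃ s, s = (b + e2 - M2) / (c2 + lam) := ⟨_, rfl⟩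
  obtain ⟨t2, ht2⟩ : ∃ s, s = (b + f2 - M2) / (1 - c2 + rho) := ⟨_, rfl⟩
  have es1 : s1 * (c1 + lam) = 1 / 2 - b + e1 - M1 := by
    rw [hs1]; exact div_mul_cancel₀ _ p1.ne'
  have es2 : s2 * (1 - c1 + rho) = 1 / 2 - b + f1 - M1 := by
    rw [hs2]; exact div_mul_cancel₀ _ p2.ne'
  have et1 : t1 * (c2 + lam) = b + e2 - M2 := by
    rw [ht1]; exact div_mul_cancel₀ _ p3.ne'
  have et2 : t2 * (1 - c2 + rho) = b + f2 - M2 := by
    rw [ht2]; exact div_mul_cancel₀ _ p4.ne'
  have s1n : 0 ≤ s1 := by rw [hs1]; exact div_nonneg (by linarith) p1.le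
  have s2n : 0 ≤ s2 := by rw [hs2]; exact div_nonneg (by linarith) p2.le
  have t1n : 0 ≤ t1 := by rw [ht1]; exact div_nonneg (by linarith) p3.le
  have t2n : 0 ≤ t2 := by rw [ht2]; exact div_nonneg (by linarith) p4.le
  have hW : 0 < 1 + lam + rho := by linarith
  have q1 := mul_nonneg s1n hW.le
  have q2 := mul_nonneg s2n hW.le
  have q3 := mul_nonneg t1n hW.le
  have q4 := mul_nonneg t2n hW.le
  refine cov_gable (X0 := -lam) (X1 := 1 + rho) (a1 := b + 1 / 2 + M1 + s1 * lam) (b1 := s1)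
    (a2 := b + 1 / 2 + M1 + s2 * (1 + rho)) (b2 := -s2) (c1 := b - M2 - t1 * lam) (d1 := -t1)
    (c2 := b - M2 - t2 * (1 + rho)) (d2 := t2) (p := c1) (q := c2) (by linarith) ?_ (by linarith)
    (by linarith) (by linarith) (by linarith) (by ring) (by linarith) (by linarith)
    (by linarith) (by linarith) (by linarith) (le_of_eq ?_)
  · intro z hz
    have g1 := h7_roof (c := c1) (lam := lam) (h := 1 / 2 - b) (e := e1) (M := M1) (x := z.1)
      (v := z.2 - (b + 1 / 2)) hc10 hlam hM1a he1 hM1e (by have := hf.tl z hz; linarith)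
      (by have := h.top z hz; linarith)
    have g2 := h7_roof (c := 1 - c1) (lam := rho) (h := 1 / 2 - b) (e := f1) (M := M1)
      (x := 1 - z.1) (v := z.2 - (b + 1 / 2)) (by linarith) hrho hM1a hf1 hM1f
      (by have := hf.tr z hz; linarith) (by have := h.top z hz; linarith)
    have g3 := h7_roof (c := c2) (lam := lam) (h := b) (e := e2) (M := M2) (x := z.1)
      (v := b - z.2) hc20 hlam hM2b he2 hM2e (by have := hf.bl z hz; linarith)
      (by have := h.bot z hz; linarith)
    have g4 := h7_roof (c := 1 - c2) (lam := rho) (h := b) (e := f2) (M := M2)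
      (x := 1 - z.1) (v := b - z.2) (by linarith) hrho hM2b hf2 hM2f
      (by have := hf.br z hz; linarith) (by have := h.bot z hz; linarith)
    rw [← hs1] at g1
    rw [← hs2] at g2
    rw [← ht1] at g3
    rw [← ht2] at g4
    refine ⟨hf.hl z hz, hf.hr z hz, ?_, ?_, ?_, ?_⟩
    · linarith
    · linarith
    · linarith
    · linarith
  · linear_combination (c1 + lam) / 2 * es1 + (1 - c1 + rho) / 2 * es2 + (c2 + lam) / 2 * et1 +
      (1 - c2 + rho) / 2 * et2

end Pool.Agent.Helper7.PHU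

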